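import Pool.Agent.Lib.MP_57313b_al.Zf.Final
import Pool.Agent.Lib.MP_57313b_al.Small

namespace Pool.Agent.Results.MP_57313b_al.Example

universe u

/-- There is a simple von Neumann regular ring that is neither right nor left artinian and has
exactly one indecomposable injective right module up to isomorphism. -/
theorem result :
    ∃ (R : Type) (_ : Ring R),
      (∀ a : R, ∃ x : R, a * x * a = a) ∧ IsSimpleRing R ∧
      ¬ IsArtinianRing Rᵐᵒᵖ ∧ ¬ IsArtinianRing R ∧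
      ∃ (M : Type) (_ : AddCommGroup M) (_ : Module Rᵐᵒᵖ M),
        Module.Injective Rᵐᵒᵖ M ∧ Nontrivial M ∧
        (∀ A B : Submodule Rᵐᵒᵖ M, IsCompl A B → A = ⊥ ∨ A = ⊤) ∧
        ∀ (N : Type u) [AddCommGroup N] [Module Rᵐᵒᵖ N],
          Module.Injective Rᵐᵒᵖ N → Nontrivial N →
          (∀ A B : Submodule Rᵐᵒᵖ N, IsCompl A B → A = ⊥ ∨ A = ⊤) →
          Nonempty (N ≃ₗ[Rᵐᵒᵖ] M) := by
  obtain ⟨R, _, h1, h2, h3, M, _, _, h4, h5, h6, h7⟩ :=
    Pool.Agent.Lib.MP_57313b_al.Zf.example_exists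
  refine ⟨R, _, h1, h2, fun h => h3 ?_, h3, M, _, _, h4, h5, h6, fun N _ _ a b c => ?_⟩
  · rwa [← IsSimpleRing.isSemisimpleRing_iff_isArtinianRing, isSemisimpleRing_mulOpposite_iff,
      IsSimpleRing.isSemisimpleRing_iff_isArtinianRing] at h
  · obtain ⟨E, _, _, e1, e2, e3, ⟨e⟩⟩ := Pool.Agent.Lib.MP_57313b_al.exists_small N a b c
    exact (h7 E e1 e2 e3).map e.trans

end Pool.Agent.Results.MP_57313b_al.Example
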