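import Pool.Agent.Lib.MP_57313b_al.IsolProof

open Pool.Agent.Lib.MP_57313b_al

/-- Let `R` be a von Neumann regular ring that is right or left `ℵ₀`-injective. If all factor rings
of `R` are directly finite, then `R` satisfies the isolation condition. -/
theorem Pool.Agent.Results.MP_57313b_al.Injective.result :
    ∀ (R : Type) [Ring R], (∀ a : R, ∃ x : R, a * x * a = a) → (AlephInj Rᵐᵒᵖ ∨ AlephInj R) →
      (∀ (I : TwoSidedIdeal R) (a b : R), a * b - 1 ∈ I → b * a - 1 ∈ I) →
      IsolationCondition R := by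
  intro R _ reg inj df
  have inj' : Rows Rᵐᵒᵖ ∨ Cols Rᵐᵒᵖ := inj.imp rows_of_inj fun h g b hg => by
    obtain ⟨y, hy⟩ := rows_of_inj h (fun n => (g n).unop) (fun n => (b n).unop) fun n m => by
      rw [← MulOpposite.unop_mul, hg]
      split_ifs with h1 h2 h2 <;> simp_all
    exact ⟨MulOpposite.op y, fun n => MulOpposite.unop_injective (hy n)⟩
  exact isolation reg df inj'
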