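import Pool.Agent.Lib.MP_57313b_al.Omit

open Pool.Agent.Lib.MP_57313b_al

/-- Let `R` be a simple von Neumann regular ring and `A` a non-artinian von Neumann regular subring
with a nonzero artinian factor ring, such that each `r A` lies in a finitely generated left
`A`-submodule of `R`. Then `R` has two non-isomorphic simple right modules and two non-isomorphic
indecomposable injective right modules. -/
theorem Pool.Agent.Results.MP_57313b_al.Normalized.result :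
    ∀ (R : Type) [Ring R] (A : Subring R), (∀ a : R, ∃ x : R, a * x * a = a) → IsSimpleRing R →
      (∀ a : A, ∃ x : A, a * x * a = a) → ¬ IsArtinianRing A →
      (∃ (K : Type) (_ : Ring K) (φ : A →+* K),
        Function.Surjective φ ∧ Nontrivial K ∧ IsArtinianRing K) →
      (∀ r : R, ∃ s : Finset R, ∀ a : A, r * a ∈ Submodule.span A (s : Set R)) →
      (∃ (M : Type) (_ : AddCommGroup M) (_ : Module Rᵐᵒᵖ M)
        (N : Type) (_ : AddCommGroup N) (_ : Module Rᵐᵒᵖ N),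
        IsSimpleModule Rᵐᵒᵖ M ∧ IsSimpleModule Rᵐᵒᵖ N ∧ IsEmpty (M ≃ₗ[Rᵐᵒᵖ] N)) ∧
      ∃ (M : Type) (_ : AddCommGroup M) (_ : Module Rᵐᵒᵖ M)
        (N : Type) (_ : AddCommGroup N) (_ : Module Rᵐᵒᵖ N),
        (Module.Injective Rᵐᵒᵖ M ∧ Nontrivial M ∧
          ∀ X Y : Submodule Rᵐᵒᵖ M, IsCompl X Y → X = ⊥ ∨ X = ⊤) ∧
        (Module.Injective Rᵐᵒᵖ N ∧ Nontrivial N ∧
          ∀ X Y : Submodule Rᵐᵒᵖ N, IsCompl X Y → X = ⊥ ∨ X = ⊤) ∧
        IsEmpty (M ≃ₗ[Rᵐᵒᵖ] N) := by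
  rintro R _ A reg h1 hA h2 ⟨K, _, φ, h3, h4, h5⟩ h6
  exact two_of_not_oneSimple (not_oneSimple_of_quasi reg A hA h2 φ h3 h6)
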