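import Pool.Agent.Lib.MP_57313b_al.Classes

open Pool.Agent.Lib.MP_57313b_al

/-- A simple non-artinian ring which is the union of an increasing sequence of von Neumann regular
subrings, each of which has essential right socle or has all its simple right modules of dimension
less than the continuum over their endomorphism rings, has two non-isomorphic indecomposable
injective right modules. -/
theorem Pool.Agent.Results.MP_57313b_al.Unions.result :
    ∀ (R : Type) [Ring R] (A : ℕ → Subring R), IsSimpleRing R → ¬ IsArtinianRing R →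
      Monotone A → (∀ r : R, ∃ n, r ∈ A n) → (∀ (n : ℕ) (a : A n), ∃ x : A n, a * x * a = a) →
      (∀ n : ℕ, IsAtomic (Ideal (A n)ᵐᵒᵖ) ∨
        ∀ (P : Type) [AddCommGroup P] [Module (A n)ᵐᵒᵖ P], IsSimpleModule (A n)ᵐᵒᵖ P →
          Module.rank (Module.End (A n)ᵐᵒᵖ P) P < Cardinal.continuum) →
      ∃ (M : Type) (_ : AddCommGroup M) (_ : Module Rᵐᵒᵖ M)
        (N : Type) (_ : AddCommGroup N) (_ : Module Rᵐᵒᵖ N),
        (Module.Injective Rᵐᵒᵖ M ∧ Nontrivial M ∧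
          ∀ X Y : Submodule Rᵐᵒᵖ M, IsCompl X Y → X = ⊥ ∨ X = ⊤) ∧
        (Module.Injective Rᵐᵒᵖ N ∧ Nontrivial N ∧
          ∀ X Y : Submodule Rᵐᵒᵖ N, IsCompl X Y → X = ⊥ ∨ X = ⊤) ∧
        IsEmpty (M ≃ₗ[Rᵐᵒᵖ] N) := by
  intro R _ A h1 h2 h3 h4 h5 h6
  by_contra hno
  have hS : OneType Rᵐᵒᵖ := star_of_not_two hno
  have hr : ∀ n, Reg (A n).op := fun n a ha =>
    let ⟨x, hx⟩ := h5 n ⟨a.unop, ha⟩
    ⟨MulOpposite.op x.1, x.2, MulOpposite.unop_injective (by
      simpa [mul_assoc] using congrArg Subtype.val hx)⟩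
  have hf : ∀ n a, a ∈ (A n).op ↔ ∃ c, RingHom.op (A n).subtype c = a := fun n a =>
    ⟨fun h => ⟨MulOpposite.op ⟨a.unop, h⟩, rfl⟩, fun ⟨c, hc⟩ => hc ▸ c.unop.2⟩
  have sub : ∀ φ : ℕ → ℕ, StrictMono φ → (Monotone fun n => (A (φ n)).op) ∧
      ∀ r, ∃ n, r ∈ (A (φ n)).op := fun φ hφ =>
    ⟨fun _ _ h _ ha => h3 (hφ.monotone h) ha,
      fun r => (h4 r.unop).imp fun n hn => h3 (hφ.id_le n) hn⟩
  obtain ⟨φ, hφ, h7⟩ : ∃ φ : ℕ → ℕ, StrictMono φ ∧ ∀ n, At (A (φ n)).op := by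
    rcases Filter.frequently_or_distrib.1 (Filter.Frequently.of_forall (f := Filter.atTop) h6)
      with h | h
    · obtain ⟨φ, hφ, h⟩ := Filter.extraction_of_frequently_atTop h
      refine ⟨φ, hφ, fun n => ?_⟩
      have := h n
      exact At.of_atomic (RingHom.op (A (φ n)).subtype) (fun a b hab => MulOpposite.unop_injective
        (Subtype.ext (congrArg MulOpposite.unop hab))) (hf _)
    · obtain ⟨φ, hφ, h⟩ := Filter.extraction_of_frequently_atTop h
      exact ⟨φ, hφ, At_of_Sm hS (sub φ hφ).1 (sub φ hφ).2 (fun n => hr _)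
        fun n => ⟨_, _, _, hf _, h n⟩⟩
  have h8 : IsSemisimpleRing Rᵐᵒᵖ := (IsSimpleRing.tfae.out 2 0).1
    (atom_of_At hS (sub φ hφ).1 (sub φ hφ).2 (fun n => hr _) h7)
  have := isSemisimpleRing_mulOpposite_iff.1 h8
  exact h2 inferInstance
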